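import Pool.Agent.N939.ME.Stm3

/-!
PROJECT ME (helper939), task ME33 (helper281): the adjoint on the hat space commutes with
functions of `r`.
-/

set_option autoImplicit false
open MeasureTheory ProbabilityTheory Filter Topology Finset
open scoped Classical

namespace Pool.Agent.N281.ME

open Pool.Agent.N939.ME

variable {S : Type} [MeasurableSpace S]

/-- the first coordinate is in `(0,1)` almost everywhere -/
theorem ae_fst (ν : Measure S) [IsProbabilityMeasure ν] :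
    ∀ᵐ p ∂(nuh ν), p.1 ∈ Set.Ioo (0:ℝ) 1 := by
  have h1 : ∀ᵐ r ∂lam, r ∈ Set.Ioo (0:ℝ) 1 := by
    unfold lam
    exact ae_restrict_mem measurableSet_Ioo
  have h2 : Measure.QuasiMeasurePreserving (Prod.fst : ℝ × S → ℝ) (nuh ν) lam :=
    Measure.quasiMeasurePreserving_fst
  exact h2.ae h1

theorem memLp_bdd_mul {α : Type} [MeasurableSpace α] {μ : Measure α} {φ h : α → ℝ}
    (hφ : Measurable φ) {C : ℝ} (hC : ∀ r, |φ r| ≤ C) (hh : MemLp h 2 μ) :
    MemLp (fun p => φ p * h p) 2 μ := by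
  have h1 : MemLp (φ * h) 2 μ :=
    MemLp.mul (p := ⊤) (q := 2) (r := 2) hh
      (memLp_top_of_bound hφ.aestronglyMeasurable C (Eventually.of_forall fun r => hC r))
  exact h1

theorem memLp_snd (ν : Measure S) [IsProbabilityMeasure ν] {a : S → ℝ} (ha : MemLp a 2 ν) :
    MemLp (fun p : ℝ × S => a p.2) 2 (nuh ν) :=
  ha.comp_measurePreserving (measurePreserving_snd (μ := lam) (ν := ν))

/-- multiplication by `r^n` on `(0,1)` -/
noncomputable def ph (n : ℕ) (r : ℝ) : ℝ := (Set.Ioo (0:ℝ) 1).indicator (fun r => r ^ n) r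

theorem ph_meas (n : ℕ) : Measurable (ph n) :=
  (measurable_id.pow_const n).indicator measurableSet_Ioo

theorem ph_bd (n : ℕ) (r : ℝ) : |ph n r| ≤ 1 := by
  unfold ph
  by_cases h : r ∈ Set.Ioo (0:ℝ) 1
  · rw [Set.indicator_of_mem h, abs_of_nonneg (pow_nonneg h.1.le n)]
    exact pow_le_one₀ h.1.le h.2.le
  · rw [Set.indicator_of_notMem h]
    simp

theorem ph_ae (ν : Measure S) [IsProbabilityMeasure ν] (n : ℕ) (h : ℝ × S → ℝ) :
    (fun p : ℝ × S => p.1 ^ n * h p) =ᵐ[nuh ν] fun p => ph n p.1 * h p := by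
  filter_upwards [ae_fst ν] with p hp
  unfold ph
  rw [Set.indicator_of_mem hp]

theorem memLp_pow (ν : Measure S) [IsProbabilityMeasure ν] (n : ℕ) {h : ℝ × S → ℝ}
    (hh : MemLp h 2 (nuh ν)) : MemLp (fun p : ℝ × S => p.1 ^ n * h p) 2 (nuh ν) :=
  (memLp_congr_ae (ph_ae ν n h)).2
    (memLp_bdd_mul (φ := fun p : ℝ × S => ph n p.1) ((ph_meas n).comp measurable_fst)
      (fun p => ph_bd n p.1) hh)

theorem memLp_sum (ν : Measure S) [IsProbabilityMeasure ν] (a : ℕ → S → ℝ) (n : ℕ)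
    (ha : ∀ j, MemLp (a j) 2 ν) :
    MemLp (fun p : ℝ × S => ∑ j ∈ range n, p.1 ^ j * a j p.2) 2 (nuh ν) :=
  memLp_finsetSum _ fun j _ => memLp_pow ν j (memLp_snd ν (ha j))

theorem int_mul {α : Type} [MeasurableSpace α] {μ : Measure α} {f g : α → ℝ}
    (hf : MemLp f 2 μ) (hg : MemLp g 2 μ) : Integrable (fun p => f p * g p) μ :=
  MemLp.integrable_mul hf hg

theorem pb (hHAT : S_HAT) (hTT : S_TT) (hBK1 : S_BK1) : S_PB := by
  intro S _ Q _ ν _ hν
  obtain ⟨hat1, hat2⟩ := hHAT S Q ν hν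
  obtain ⟨-, -, t3, -, -, t6⟩ := hTT (ℝ × S) (Qh Q) (nuh ν) hat2
  obtain ⟨s1, s2, -, -, -, -, -, -, -⟩ := hBK1 S Q ν hν
  obtain ⟨b1, b2, b3, -, -, b6, b7, b8, -⟩ := hBK1 (ℝ × S) (Qh Q) (nuh ν) hat2
  have P1 : ∀ (φ : ℝ → ℝ) (h : ℝ × S → ℝ), Measurable φ → (∃ C : ℝ, ∀ r, |φ r| ≤ C) →
      MemLp h 2 (nuh ν) →
      bk (Qh Q) (nuh ν) (fun p => φ p.1 * h p) =ᵐ[nuh ν]
        fun p => φ p.1 * bk (Qh Q) (nuh ν) h p := by
    intro φ h hφ hC hh
    obtain ⟨C, hC⟩ := hC
    have hφ' : Measurable (fun p : ℝ × S => φ p.1) := hφ.comp measurable_fst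
    have m1 : MemLp (fun p => φ p.1 * h p) 2 (nuh ν) := memLp_bdd_mul hφ' (fun p => hC p.1) hh
    obtain ⟨i1, i2, i3⟩ := b1 h hh
    refine b3 _ _ _ (b1 _ m1) ⟨hφ'.mul i1, memLp_bdd_mul hφ' (fun p => hC p.1) i2, ?_⟩
    intro g hg hg2
    have e1 := i3 (fun p => φ p.1 * g p) (hφ'.mul hg) (memLp_bdd_mul hφ' (fun p => hC p.1) hg2)
    have e2 : ∀ p : ℝ × S, TT (Qh Q) (fun p => φ p.1 * g p) p = φ p.1 * TT (Qh Q) g p := by
      rintro ⟨r, x⟩
      rw [hat1, hat1]
      show (∫ y, φ r * g (r, y) ∂(Q x)) = φ r * ∫ y, g (r, y) ∂(Q x)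
      exact MeasureTheory.integral_const_mul (φ r) (fun y => g (r, y))
    calc ∫ p, φ p.1 * bk (Qh Q) (nuh ν) h p * g p ∂(nuh ν)
        = ∫ p, bk (Qh Q) (nuh ν) h p * (φ p.1 * g p) ∂(nuh ν) := by
          refine integral_congr_ae (Eventually.of_forall fun p => ?_)
          show φ p.1 * bk (Qh Q) (nuh ν) h p * g p = bk (Qh Q) (nuh ν) h p * (φ p.1 * g p)
          ring
      _ = ∫ p, h p * TT (Qh Q) (fun p => φ p.1 * g p) p ∂(nuh ν) := e1
      _ = ∫ p, φ p.1 * h p * TT (Qh Q) g p ∂(nuh ν) := by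
          refine integral_congr_ae (Eventually.of_forall fun p => ?_)
          show h p * TT (Qh Q) (fun p => φ p.1 * g p) p = φ p.1 * h p * TT (Qh Q) g p
          rw [e2]
          ring
  have P2 : ∀ a : S → ℝ, MemLp a 2 ν →
      bk (Qh Q) (nuh ν) (fun p => a p.2) =ᵐ[nuh ν] fun p => bk Q ν a p.2 := by
    intro a ha
    obtain ⟨i1, i2, i3⟩ := s1 a ha
    refine b3 _ _ _ (b1 _ (memLp_snd ν ha)) ⟨i1.comp measurable_snd, memLp_snd ν i2, ?_⟩
    intro g hg hg2
    have I1 : Integrable (fun p : ℝ × S => bk Q ν a p.2 * g p) (lam.prod ν) :=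
      int_mul (memLp_snd ν i2) hg2
    have I2 : Integrable (fun p : ℝ × S => a p.2 * TT (Qh Q) g p) (lam.prod ν) :=
      int_mul (memLp_snd ν ha) (t3 g hg2).1
    have I3 : Integrable (fun p : ℝ × S => g p ^ 2) (lam.prod ν) := hg2.integrable_sq
    show ∫ p, bk Q ν a p.2 * g p ∂(lam.prod ν) = ∫ p, a p.2 * TT (Qh Q) g p ∂(lam.prod ν)
    rw [integral_prod _ I1, integral_prod _ I2]
    refine integral_congr_ae ?_
    filter_upwards [I3.prod_right_ae] with r hr
    have hgr : Measurable (fun x => g (r, x)) := hg.comp measurable_prodMk_left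
    have m1 : MemLp (fun x => g (r, x)) 2 ν :=
      (memLp_two_iff_integrable_sq hgr.aestronglyMeasurable).2 hr
    have e1 := i3 (fun x => g (r, x)) hgr m1
    show ∫ x, bk Q ν a x * g (r, x) ∂ν = ∫ x, a x * TT (Qh Q) g (r, x) ∂ν
    rw [e1]
    refine integral_congr_ae (Eventually.of_forall fun x => ?_)
    show a x * TT Q (fun x => g (r, x)) x = a x * TT (Qh Q) g (r, x)
    rw [hat1]
    rfl
  refine ⟨P1, P2, ?_, ?_⟩
  · intro a n ha
    induction n with
    | zero =>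
      have h0 : MemLp (fun _ : ℝ × S => (0:ℝ)) 2 (nuh ν) := MemLp.zero'
      have h1 := b7 (fun _ => 0) 0 h0
      have e0 : (fun p : ℝ × S => ∑ j ∈ range 0, p.1 ^ j * a j p.2) = fun _ => (0:ℝ) * 0 := by
        funext p; simp
      rw [e0]
      refine h1.trans (Eventually.of_forall fun p => ?_)
      simp
    | succ n ih =>
      have m1 := memLp_sum ν a n ha
      have m2 := memLp_snd ν (ha n)
      have m3 := memLp_pow ν n m2
      have e0 : (fun p : ℝ × S => ∑ j ∈ range (n + 1), p.1 ^ j * a j p.2) =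
          fun p => (∑ j ∈ range n, p.1 ^ j * a j p.2) + p.1 ^ n * a n p.2 := by
        funext p; rw [Finset.sum_range_succ]
      rw [e0]
      have c1 := b6 _ _ m1 m3
      have c2 := b8 _ _ (ph_ae ν n (fun p : ℝ × S => a n p.2))
      have c3 := P1 (ph n) (fun p : ℝ × S => a n p.2) (ph_meas n) ⟨1, ph_bd n⟩ m2
      have c4 := P2 (a n) (ha n)
      have c5 := ph_ae ν n (fun p : ℝ × S => bk Q ν (a n) p.2)
      filter_upwards [c1, c2, c3, c4, c5, ih] with p d1 d2 d3 d4 d5 d6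
      rw [d1, d6, d2, d3, d4, ← d5, Finset.sum_range_succ]
  · intro a n ha
    induction n with
    | zero =>
      refine Eventually.of_forall fun p => ?_
      simp [TT]
    | succ n ih =>
      have m1 := (memLp_sum ν a n ha).integrable (by norm_num)
      have m3 := (memLp_pow ν n (memLp_snd ν (ha n))).integrable (by norm_num)
      have e0 : (fun p : ℝ × S => ∑ j ∈ range (n + 1), p.1 ^ j * a j p.2) =
          fun p => (∑ j ∈ range n, p.1 ^ j * a j p.2) + p.1 ^ n * a n p.2 := by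
        funext p; rw [Finset.sum_range_succ]
      rw [e0]
      have c1 := t6 _ _ m1 m3
      have c2 : ∀ p : ℝ × S, TT (Qh Q) (fun p => p.1 ^ n * a n p.2) p =
          p.1 ^ n * TT Q (a n) p.2 := by
        rintro ⟨r, x⟩
        rw [hat1]
        show (∫ y, r ^ n * a n y ∂(Q x)) = r ^ n * ∫ y, a n y ∂(Q x)
        exact MeasureTheory.integral_const_mul (r ^ n) (fun y => a n y)
      filter_upwards [c1, ih] with p d1 d6
      rw [d1, d6, c2, Finset.sum_range_succ]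

end Pool.Agent.N281.ME
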